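import Mathlib

/-!
# The simplicial volume of closed affine manifolds
-/

set_option autoImplicit false

namespace Pool.Agent.Q28.AF

universe u

/-- Closed connected manifolds of dimension at least 1 which admit an affine structure: `dim M`, the
simplicial volume `vol M`; `Cover M d M'`: `M'` is a connected covering of `M` of degree `d`;
`IsProd M N P`: `P` is diffeomorphic to `M × N`. -/
structure Affine where
  Mfd : Type u
  dim : Mfd → ℕ
  vol : Mfd → ℝ
  Cover : Mfd → ℕ → Mfd → Prop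
  IsProd : Mfd → Mfd → Mfd → Prop

/-- Known facts. `dim_pos`, `nonneg`; `cover`: coverings have the same dimension and the simplicial volume is
multiplicative; `exists_cover`: there are coverings of arbitrarily large finite degree (the holonomy
group is a finitely generated linear group, hence residually finite by Malcev's theorem, and it is
infinite, as otherwise a finite covering would have a developing map to `ℝ^n`); `prod`: products of
affine manifolds are affine, and `‖M × N‖ ≥ ‖M‖ ‖N‖` (Gromov). -/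
structure Affine.Facts (T : Affine.{u}) : Prop where
  dim_pos : ∀ M, 0 < T.dim M
  nonneg : ∀ M, 0 ≤ T.vol M
  cover : ∀ M d M', T.Cover M d M' → T.dim M' = T.dim M ∧ T.vol M' = d * T.vol M
  exists_cover : ∀ M (n : ℕ), ∃ d M', n ≤ d ∧ T.Cover M d M'
  exists_prod : ∀ M N, ∃ P, T.IsProd M N P
  prod : ∀ M N P, T.IsProd M N P → T.dim P = T.dim M + T.dim N ∧ T.vol M * T.vol N ≤ T.vol P

variable {T : Affine.{u}}

/-- powers -/
theorem Affine.Facts.power (hT : T.Facts) (M : T.Mfd) (hM : 0 < T.vol M) (j : ℕ) :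
    ∃ P : T.Mfd, T.dim P = T.dim M * (j + 1) ∧ 0 < T.vol P := by
  induction j with
  | zero => exact ⟨M, by ring, hM⟩
  | succ j ih =>
    obtain ⟨P, hd, hv⟩ := ih
    obtain ⟨Q, hQ⟩ := hT.exists_prod P M
    obtain ⟨h1, h2⟩ := hT.prod P M Q hQ
    exact ⟨Q, by rw [h1, hd]; ring, lt_of_lt_of_le (mul_pos hv hM) h2⟩

/-- positive simplicial volume implies unbounded simplicial volumes in the same dimension -/
theorem Affine.Facts.unbounded (hT : T.Facts) (M : T.Mfd) (hM : 0 < T.vol M) (C : ℝ) :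
    ∃ (M' : T.Mfd) (d : ℕ), T.Cover M d M' ∧ C < T.vol M' := by
  obtain ⟨n, hn⟩ := exists_nat_gt (C / T.vol M)
  obtain ⟨d, M', hd, hc⟩ := hT.exists_cover M n
  refine ⟨M', d, hc, ?_⟩
  rw [(hT.cover M d M' hc).2]
  rw [div_lt_iff₀ hM] at hn
  exact lt_of_lt_of_le hn (mul_le_mul_of_nonneg_right (by exact_mod_cast hd) hM.le)

/-- the multiples of the dimension of a counterexample -/
theorem Affine.Facts.multiples (hT : T.Facts) (M : T.Mfd) (hM : T.vol M ≠ 0) (j : ℕ) (hj : 0 < j)
    (C : ℝ) : ∃ M' : T.Mfd, T.dim M' = T.dim M * j ∧ C < T.vol M' := by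
  obtain ⟨i, rfl⟩ := Nat.exists_eq_succ_of_ne_zero hj.ne'
  obtain ⟨P, hP, hv⟩ := hT.power M (lt_of_le_of_ne (hT.nonneg M) (Ne.symm hM)) i
  obtain ⟨P', d, hc, hlt⟩ := hT.unbounded P hv C
  exact ⟨P', by rw [(hT.cover P d P' hc).1, hP], hlt⟩

/-- boundedness in a set of dimensions -/
theorem Affine.Facts.bounded (hT : T.Facts) {I : Set ℕ} (h0 : ∀ k ∈ I, 0 < k)
    (hI : ∀ n, 0 < n → ∃ k ∈ I, n ∣ k) : (∀ M, T.vol M = 0) ↔
      ∀ k ∈ I, ∃ C : ℝ, ∀ M, T.dim M = k → T.vol M ≤ C := by
  constructor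
  · intro h k _
    exact ⟨0, fun M _ => (h M).le⟩
  · intro h M
    by_contra hne
    have hM : 0 < T.vol M := lt_of_le_of_ne (hT.nonneg M) (Ne.symm hne)
    obtain ⟨k, hk, j, hj⟩ := hI (T.dim M) (hT.dim_pos M)
    have hk0 := h0 k hk
    have hj0 : j ≠ 0 := by
      rintro rfl
      rw [mul_zero] at hj
      omega
    obtain ⟨i, rfl⟩ := Nat.exists_eq_succ_of_ne_zero hj0
    obtain ⟨P, hP, hv⟩ := hT.power M hM i
    obtain ⟨C, hC⟩ := h k hk
    obtain ⟨P', d, hc, hlt⟩ := hT.unbounded P hv C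
    have h1 := hC P' (by rw [(hT.cover P d P' hc).1, hP, hj])
    exact absurd hlt (not_lt.2 h1)

end Pool.Agent.Q28.AF
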